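import Mathlib
import Pool.Agent.Helper982.PairMinors
import Pool.Agent.Helper982.GKKFive

set_option autoImplicit false

open Matrix Finset

namespace Pool.Agent.Results.MP_40f31b_al.SmallOrders

open Pool.Agent.Helper982.PairMinors

variable {n : ℕ}

/-- The minor of the real matrix `A` with rows `α` and columns `β`, two increasing index
sequences of the same length `k`. -/
noncomputable def minor {k : ℕ} (A : Matrix (Fin n) (Fin n) ℝ) (α β : Fin k ↪o Fin n) : ℝ :=
  (A.submatrix α β).det

/-- The set of indices occurring in an increasing index sequence. -/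
def idx {k : ℕ} (α : Fin k ↪o Fin n) : Finset (Fin n) := univ.image α

/-- The dispersal of the minor `A[α,β]`: `#α - #(α ∩ β)`. -/
def dispersal {k : ℕ} (α β : Fin k ↪o Fin n) : ℕ := k - (idx α ∩ idx β).card

/-- `A` is a P-matrix: all principal minors are positive. -/
def IsPMatrix (A : Matrix (Fin n) (Fin n) ℝ) : Prop :=
  ∀ (k : ℕ) (α : Fin k ↪o Fin n), 0 < minor A α α

/-- Condition `(S_d)`: `A[α,β] A[β,α] ≥ 0` whenever the dispersal is at most `d`. -/
def CondS (d : ℕ) (A : Matrix (Fin n) (Fin n) ℝ) : Prop :=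
  ∀ (k : ℕ) (α β : Fin k ↪o Fin n), dispersal α β ≤ d → 0 ≤ minor A α β * minor A β α

/-- `A` is (positive) stable: every complex eigenvalue has positive real part. -/
def IsStable (A : Matrix (Fin n) (Fin n) ℝ) : Prop :=
  ∀ μ ∈ spectrum ℂ (A.map Complex.ofRealHom), 0 < μ.re

/-- Every `n × n` P-matrix satisfying `(S_d)` is stable. -/
def Forces (n d : ℕ) : Prop :=
  ∀ A : Matrix (Fin n) (Fin n) ℝ, IsPMatrix A → CondS d A → IsStable A

/-- The number `d(n)`: the least `d ∈ {1, …, n}` such that every `n × n` P-matrix satisfying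
`(S_d)` is stable. -/
noncomputable def dMin (n : ℕ) : ℕ := sInf {d | 1 ≤ d ∧ d ≤ n ∧ Forces n d}

section basic
variable {A : Matrix (Fin n) (Fin n) ℝ}

theorem idx_card {k : ℕ} (α : Fin k ↪o Fin n) : (idx α).card = k := by
  unfold idx
  rw [Finset.card_image_of_injective _ α.injective]; simp

theorem idx_orderEmbOfFin (s : Finset (Fin n)) {k : ℕ} (h : s.card = k) : idx (s.orderEmbOfFin h) = s := by
  unfold idx
  exact Finset.image_orderEmbOfFin_univ s h

theorem pm_pos (hA : IsPMatrix A) (s : Finset (Fin n)) : 0 < pm A s := by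
  have h := hA s.card (s.orderEmbOfFin rfl)
  unfold minor at h
  unfold pm
  rw [← det_submatrix_equiv_self (s.orderIsoOfFin rfl).toEquiv]
  exact h

theorem N_nonneg {d : ℕ} (hd : (n - 1) / 2 ≤ d) (hS : CondS d A) (s : Finset (Fin n ⊕ Fin n))
    (hs : s.toLeft ≠ s.toRightᶜ) : 0 ≤ N A s := by
  by_cases hc : s.toLeft.card = s.toRight.card
  · set k := s.toLeft.card with hk
    let α : Fin k ↪o Fin n := s.toLeft.orderEmbOfFin rfl
    let β : Fin k ↪o Fin n := s.toRight.orderEmbOfFin hc.symm
    have hα : idx α = s.toLeft := idx_orderEmbOfFin _ _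
    have hβ : idx β = s.toRight := idx_orderEmbOfFin _ _
    rw [N_eq A α β α.injective β.injective s hα.symm hβ.symm]
    apply hS k α β
    unfold dispersal
    rw [hα, hβ]
    by_contra hcon
    push Not at hcon
    have h1 := Finset.card_union_add_card_inter s.toLeft s.toRight
    have h2 : (s.toLeft ∪ s.toRight).card ≤ n := by
      simpa using Finset.card_le_univ (s.toLeft ∪ s.toRight)
    have h3 : (s.toLeft ∩ s.toRight).card = 0 := by omega
    have h4 : (s.toLeft ∪ s.toRight).card = n := by omega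
    apply hs
    have h5 : s.toLeft ∪ s.toRight = univ := by
      apply Finset.eq_univ_of_card
      simpa using h4
    have h6 : Disjoint s.toLeft s.toRight := by
      rw [Finset.disjoint_iff_inter_eq_empty]
      exact Finset.card_eq_zero.mp h3
    ext x
    rw [mem_compl]
    constructor
    · intro hx hx2
      exact (Finset.disjoint_left.mp h6 hx) hx2
    · intro hx
      have : x ∈ s.toLeft ∪ s.toRight := by rw [h5]; exact mem_univ _
      rcases mem_union.mp this with h | h
      · exact h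
      · exact absurd h hx
  · rw [N_zero A s hc]

theorem minor_scale (x : Fin n → ℝ) {k : ℕ} (α β : Fin k ↪o Fin n) :
    minor (diagonal x * A) α β = (∏ i, x (α i)) * minor A α β := by
  unfold minor
  have : (diagonal x * A).submatrix α β = Matrix.of (fun (i j : Fin k) => (fun i => x (α i)) i * (A.submatrix α β) i j) := by
    ext i j; simp [diagonal_mul]
  rw [this, det_mul_column]

theorem isP_scale {x : Fin n → ℝ} (hx : ∀ i, 0 < x i) (hA : IsPMatrix A) : IsPMatrix (diagonal x * A) := by
  intro k α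
  rw [minor_scale]
  exact mul_pos (Finset.prod_pos fun i _ => hx _) (hA k α)

theorem condS_scale {d : ℕ} {x : Fin n → ℝ} (hx : ∀ i, 0 < x i) (hA : CondS d A) : CondS d (diagonal x * A) := by
  intro k α β h
  rw [minor_scale, minor_scale]
  have h1 := hA k α β h
  have h2 : 0 < ∏ i, x (α i) := Finset.prod_pos fun i _ => hx _
  have h3 : 0 < ∏ i, x (β i) := Finset.prod_pos fun i _ => hx _
  have : (∏ i, x (α i)) * minor A α β * ((∏ i, x (β i)) * minor A β α) =
    ((∏ i, x (α i)) * (∏ i, x (β i))) * (minor A α β * minor A β α) := by ring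
  rw [this]
  exact mul_nonneg (mul_pos h2 h3).le h1

end basic

section sub
variable {A : Matrix (Fin (n + 1)) (Fin (n + 1)) ℝ}

/-- the leading principal submatrix -/
def lead (A : Matrix (Fin (n + 1)) (Fin (n + 1)) ℝ) : Matrix (Fin n) (Fin n) ℝ :=
  A.submatrix Fin.castSucc Fin.castSucc

theorem minor_lead {k : ℕ} (α β : Fin k ↪o Fin n) :
    minor (lead A) α β = minor A (α.trans Fin.castSuccOrderEmb) (β.trans Fin.castSuccOrderEmb) := rfl

theorem dispersal_lead {k : ℕ} (α β : Fin k ↪o Fin n) :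
    dispersal (α.trans Fin.castSuccOrderEmb) (β.trans Fin.castSuccOrderEmb) = dispersal α β := by
  have h : ∀ γ : Fin k ↪o Fin n, idx (γ.trans Fin.castSuccOrderEmb) = (idx γ).image Fin.castSucc := by
    intro γ
    unfold idx
    rw [Finset.image_image]
    rfl
  unfold dispersal
  rw [h, h, ← Finset.image_inter _ _ (Fin.castSucc_injective n), Finset.card_image_of_injective _ (Fin.castSucc_injective n)]

theorem isP_lead (hA : IsPMatrix A) : IsPMatrix (lead A) := fun k α => by
  rw [minor_lead]; exact hA k _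

theorem condS_lead {d : ℕ} (hA : CondS d A) : CondS d (lead A) := fun k α β h => by
  rw [minor_lead, minor_lead]
  exact hA k _ _ (by rw [dispersal_lead]; exact h)

end sub

section imag
variable {A : Matrix (Fin n) (Fin n) ℝ}

theorem no_imag_pos {d : ℕ} (hn : 0 < n) (hd : (n - 1) / 2 ≤ d) (hP : IsPMatrix A) (hS : CondS d A)
    {y : ℝ} (hy : 0 < y) : (A.map Complex.ofRealHom + (y * Complex.I) • (1 : Matrix (Fin n) (Fin n) ℂ)).det ≠ 0 := by
  have hx : ∀ i : Fin n, 0 < (fun _ : Fin n => y⁻¹) i := fun _ => inv_pos.mpr hy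
  have h := H_ne_zero hn (pm_pos (isP_scale hx hP)) (N_nonneg hd (condS_scale hx hS))
  unfold H at h
  intro h0
  apply h
  have hyc : (y : ℂ) ≠ 0 := by exact_mod_cast hy.ne'
  have e : (diagonal (fun _ : Fin n => y⁻¹) * A).map Complex.ofRealHom + Complex.I • (1 : Matrix (Fin n) (Fin n) ℂ)
      = (y : ℂ)⁻¹ • (A.map Complex.ofRealHom + (y * Complex.I) • (1 : Matrix (Fin n) (Fin n) ℂ)) := by
    ext i j
    simp only [Matrix.add_apply, Matrix.map_apply, diagonal_mul, Matrix.smul_apply, smul_eq_mul]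
    simp
    field_simp
  rw [e, det_smul, h0, mul_zero]

theorem det_conj (z : ℂ) : (A.map Complex.ofRealHom + ((starRingEnd ℂ) z) • (1 : Matrix (Fin n) (Fin n) ℂ)).det =
    (starRingEnd ℂ) ((A.map Complex.ofRealHom + z • (1 : Matrix (Fin n) (Fin n) ℂ)).det) := by
  rw [RingHom.map_det]
  congr 1
  ext i j
  by_cases hij : i = j
  · subst hij; simp
  · simp [hij]

theorem det_real_pos (hP : IsPMatrix A) : 0 < A.det := by
  have h := hP n (RelEmbedding.refl (α := Fin n) (· ≤ ·))
  unfold minor at h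
  simpa using h

theorem no_imag {d : ℕ} (hd : (n - 1) / 2 ≤ d) (hP : IsPMatrix A) (hS : CondS d A)
    {z : ℂ} (hz : z.re = 0) : (A.map Complex.ofRealHom + z • (1 : Matrix (Fin n) (Fin n) ℂ)).det ≠ 0 := by
  rcases Nat.eq_zero_or_pos n with rfl | hn
  · simp
  have hz' : z = z.im * Complex.I := by
    apply Complex.ext <;> simp [hz]
  rcases lt_trichotomy z.im 0 with h | h | h
  · have h1 := no_imag_pos hn hd hP hS (y := -z.im) (by linarith)
    have h2 : (((-z.im : ℝ) : ℂ) * Complex.I) = (starRingEnd ℂ) z := by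
      apply Complex.ext <;> simp [hz]
    rw [h2, det_conj] at h1
    intro h3
    rw [h3] at h1
    simp at h1
  · have h0 : z = 0 := Complex.ext hz h
    rw [h0, zero_smul, add_zero, ← RingHom.mapMatrix_apply, ← RingHom.map_det]
    have := det_real_pos hP
    simpa using this.ne'
  · have h1 := no_imag_pos hn hd hP hS h
    rwa [hz']

end imag

section stable

theorem eval_poly {m : ℕ} (B : Matrix (Fin m) (Fin m) ℂ) (z : ℂ) :
    (-B).charpoly.eval z = (B + z • (1 : Matrix (Fin m) (Fin m) ℂ)).det := by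
  rw [Matrix.eval_charpoly]
  congr 1
  rw [Matrix.scalar_apply, sub_neg_eq_add, add_comm, smul_one_eq_diagonal]

theorem det_last (A : Matrix (Fin (n + 1)) (Fin (n + 1)) ℝ) (t : ℝ) (z : ℂ) :
    ((diagonal (Fin.lastCases t (fun _ => 1)) * A).map Complex.ofRealHom + z • (1 : Matrix (Fin (n + 1)) (Fin (n + 1)) ℂ)).det =
      (1 - t) * (z * ((lead A).map Complex.ofRealHom + z • (1 : Matrix (Fin n) (Fin n) ℂ)).det) +
      t * (A.map Complex.ofRealHom + z • (1 : Matrix (Fin (n + 1)) (Fin (n + 1)) ℂ)).det := by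
  set M := A.map Complex.ofRealHom + z • (1 : Matrix (Fin (n + 1)) (Fin (n + 1)) ℂ) with hM
  have e0 : (diagonal (Fin.lastCases t (fun _ => 1)) * A).map Complex.ofRealHom + z • (1 : Matrix (Fin (n + 1)) (Fin (n + 1)) ℂ)
      = M.updateRow (Fin.last n) ((((1 - t) * z : ℂ)) • (Pi.single (Fin.last n) 1) + (t : ℂ) • M (Fin.last n)) := by
    ext i j
    refine Fin.lastCases ?_ (fun i => ?_) i
    · rw [updateRow_self]
      by_cases hj : j = Fin.last n
      · subst hj
        simp [hM, diagonal_mul]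
        ring
      · have hj' : Fin.last n ≠ j := fun h => hj h.symm
        simp [hM, diagonal_mul, Matrix.one_apply_ne hj', Pi.single_eq_of_ne hj]
    · rw [updateRow_ne (Fin.castSucc_lt_last i).ne]
      simp [hM, diagonal_mul]
  rw [e0, det_updateRow_add, det_updateRow_smul, det_updateRow_smul, updateRow_eq_self]
  have e1 : (M.updateRow (Fin.last n) (Pi.single (Fin.last n) 1)).det =
      ((lead A).map Complex.ofRealHom + z • (1 : Matrix (Fin n) (Fin n) ℂ)).det := by
    rw [det_succ_row _ (Fin.last n), Finset.sum_eq_single (Fin.last n)]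
    · rw [updateRow_self, Pi.single_eq_same, Fin.val_last, ← two_mul, pow_mul, neg_one_sq, one_pow, one_mul, one_mul]
      congr 1
      ext i j
      rw [submatrix_apply, Fin.succAbove_last, updateRow_ne (Fin.castSucc_lt_last i).ne]
      by_cases hij : i = j
      · subst hij; simp [hM, lead]
      · have : i.castSucc ≠ j.castSucc := fun h => hij (Fin.castSucc_injective _ h)
        simp [hM, lead, Matrix.one_apply_ne hij, Matrix.one_apply_ne this]
    · intro j _ hj
      rw [updateRow_self, Pi.single_eq_of_ne hj]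
      simp
    · simp
  rw [e1]
  ring

theorem no_zero {d : ℕ} : ∀ n : ℕ, (n - 1) / 2 ≤ d → ∀ A : Matrix (Fin n) (Fin n) ℝ, IsPMatrix A → CondS d A →
    ∀ z : ℂ, 0 ≤ z.re → (A.map Complex.ofRealHom + z • (1 : Matrix (Fin n) (Fin n) ℂ)).det ≠ 0 := by
  intro n
  induction n with
  | zero => intro _ A _ _ z _; simp
  | succ n ih =>
    intro hd A hP hS z hz
    have ih' := ih (by omega) (lead A) (isP_lead hP) (condS_lead hS)
    rw [← eval_poly]
    refine no_root (m := n) (q := (-(lead A).map Complex.ofRealHom).charpoly)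
      (P := (-A.map Complex.ofRealHom).charpoly) (charpoly_monic _) (by rw [charpoly_natDegree_eq_dim]; simp)
      (charpoly_monic _) (by rw [charpoly_natDegree_eq_dim]; simp) ?_ ?_ ?_ z hz
    · intro z hz
      rw [eval_poly]
      exact ih' z hz
    · intro t ht0 ht1 z hz
      rw [eval_poly, eval_poly, ← det_last]
      have hx : ∀ i : Fin (n + 1), 0 < (Fin.lastCases t (fun _ => 1) : Fin (n + 1) → ℝ) i := by
        intro i
        refine Fin.lastCases ?_ (fun i => ?_) i
        · simpa using ht0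
        · simp
      exact no_imag hd (isP_scale hx hP) (condS_scale hx hS) hz
    · rw [eval_poly, eval_poly, zero_smul, zero_smul, add_zero, add_zero, ← RingHom.mapMatrix_apply,
        ← RingHom.map_det, ← RingHom.mapMatrix_apply, ← RingHom.map_det]
      have h1 := det_real_pos hP
      have h2 := det_real_pos (isP_lead hP)
      have : (Complex.ofRealHom A.det / Complex.ofRealHom (lead A).det) = (((A.det / (lead A).det : ℝ)) : ℂ) := by
        push_cast; rfl
      rw [this, Complex.ofReal_re]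
      positivity

theorem isStable_iff {A : Matrix (Fin n) (Fin n) ℝ} : IsStable A ↔
    ∀ z : ℂ, 0 ≤ z.re → (A.map Complex.ofRealHom + z • (1 : Matrix (Fin n) (Fin n) ℂ)).det ≠ 0 := by
  have key : ∀ μ : ℂ, μ ∈ spectrum ℂ (A.map Complex.ofRealHom) ↔
      (A.map Complex.ofRealHom + (-μ) • (1 : Matrix (Fin n) (Fin n) ℂ)).det = 0 := fun μ =>
    ⟨fun h => Pool.Agent.Helper982.GKKFive.det_shift_zero h, fun h => Pool.Agent.Helper982.GKKFive.mem_spectrum_of_det h⟩
  constructor
  · intro h z hz h0
    have := h (-z) ((key (-z)).mpr (by rw [neg_neg]; exact h0))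
    rw [Complex.neg_re] at this
    linarith
  · intro h μ hμ
    by_contra hcon
    push Not at hcon
    exact h (-μ) (by rw [Complex.neg_re]; linarith) ((key μ).mp hμ)

theorem forces_of_le {n d : ℕ} (hd : (n - 1) / 2 ≤ d) : Forces n d := fun A hP hS =>
  isStable_iff.mpr (no_zero n hd A hP hS)

end stable

section extend

/-- the direct sum of `(1)` and `A` -/
def ext1 (A : Matrix (Fin n) (Fin n) ℝ) : Matrix (Fin (n + 1)) (Fin (n + 1)) ℝ :=
  fun i j => Fin.cases (Fin.cases 1 (fun _ => 0) j) (fun i' => Fin.cases 0 (fun j' => A i' j') j) i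

variable {A : Matrix (Fin n) (Fin n) ℝ}

@[simp] theorem ext1_00 : ext1 A 0 0 = 1 := rfl
@[simp] theorem ext1_0s (j : Fin n) : ext1 A 0 j.succ = 0 := rfl
@[simp] theorem ext1_s0 (i : Fin n) : ext1 A i.succ 0 = 0 := rfl
@[simp] theorem ext1_ss (i j : Fin n) : ext1 A i.succ j.succ = A i j := rfl

/-- lower an embedding which avoids zero -/
def low {k : ℕ} (α : Fin k ↪o Fin (n + 1)) (h : ∀ i, α i ≠ 0) : Fin k ↪o Fin n :=
  OrderEmbedding.ofStrictMono (fun i => (α i).pred (h i)) (fun i j hij => by
    rw [Fin.pred_lt_pred_iff]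
    exact α.lt_iff_lt.mpr hij)

theorem low_succ {k : ℕ} (α : Fin k ↪o Fin (n + 1)) (h : ∀ i, α i ≠ 0) (i : Fin k) : (low α h i).succ = α i :=
  Fin.succ_pred _ (h i)

theorem idx_low {k : ℕ} (α : Fin k ↪o Fin (n + 1)) (h : ∀ i, α i ≠ 0) : idx α = (idx (low α h)).image Fin.succ := by
  unfold idx
  rw [Finset.image_image]
  apply Finset.image_congr
  intro i _
  exact (low_succ α h i).symm

/-- the tail of an embedding -/
def tl {k : ℕ} (α : Fin (k + 1) ↪o Fin (n + 1)) : Fin k ↪o Fin (n + 1) := (Fin.succOrderEmb k).trans α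

theorem tl_ne {k : ℕ} (α : Fin (k + 1) ↪o Fin (n + 1)) (i : Fin k) : tl α i ≠ 0 := by
  have : α 0 < α i.succ := α.lt_iff_lt.mpr (Fin.succ_pos i)
  intro h
  have h2 : α i.succ = 0 := h
  rw [h2] at this
  exact absurd this (Fin.not_lt_zero _)

theorem idx_tl {k : ℕ} (α : Fin (k + 1) ↪o Fin (n + 1)) (h : α 0 = 0) : idx α = insert 0 (idx (tl α)) := by
  unfold idx
  ext x
  simp only [mem_image, mem_univ, true_and, mem_insert]
  constructor
  · rintro ⟨i, hi⟩
    rcases Fin.eq_zero_or_eq_succ i with rfl | ⟨j, rfl⟩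
    · left; rw [← hi, h]
    · right; exact ⟨j, hi⟩
  · rintro (rfl | ⟨j, hj⟩)
    · exact ⟨0, h⟩
    · exact ⟨j.succ, hj⟩

theorem ne_of_ne {k : ℕ} (α : Fin (k + 1) ↪o Fin (n + 1)) (h : α 0 ≠ 0) (i : Fin (k + 1)) : α i ≠ 0 := by
  intro hi
  have h1 : α 0 ≤ α i := α.le_iff_le.mpr (Fin.zero_le i)
  rw [hi] at h1
  exact h (Fin.le_zero_iff.mp h1)

theorem minor_ext_low {k : ℕ} (α β : Fin k ↪o Fin (n + 1)) (hα : ∀ i, α i ≠ 0) (hβ : ∀ i, β i ≠ 0) :
    minor (ext1 A) α β = minor A (low α hα) (low β hβ) := by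
  unfold minor
  congr 1
  ext i j
  rw [submatrix_apply, submatrix_apply, ← low_succ α hα, ← low_succ β hβ, ext1_ss]

theorem minor_ext_tl {k : ℕ} (α β : Fin (k + 1) ↪o Fin (n + 1)) (hα : α 0 = 0) (hβ : β 0 = 0) :
    minor (ext1 A) α β = minor A (low (tl α) (tl_ne α)) (low (tl β) (tl_ne β)) := by
  rw [← minor_ext_low]
  unfold minor
  rw [det_succ_row_zero, Finset.sum_eq_single 0]
  · simp only [submatrix_apply, hα, hβ, ext1_00, Fin.val_zero, pow_zero, one_mul, Fin.zero_succAbove]
    rfl
  · intro j _ hj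
    obtain ⟨j', rfl⟩ := Fin.exists_succ_eq.mpr hj
    rw [submatrix_apply, hα]
    have h1 := low_succ (tl β) (tl_ne β) j'
    have h2 : β j'.succ = tl β j' := rfl
    rw [h2, ← h1, ext1_0s]
    simp
  · simp

theorem minor_ext_row {k : ℕ} (α β : Fin (k + 1) ↪o Fin (n + 1)) (hα : α 0 = 0) (hβ : β 0 ≠ 0) :
    minor (ext1 A) α β = 0 := by
  unfold minor
  apply det_eq_zero_of_row_eq_zero 0
  intro j
  rw [submatrix_apply, hα, ← low_succ β (ne_of_ne β hβ), ext1_0s]

theorem minor_ext_col {k : ℕ} (α β : Fin (k + 1) ↪o Fin (n + 1)) (hα : α 0 ≠ 0) (hβ : β 0 = 0) :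
    minor (ext1 A) α β = 0 := by
  unfold minor
  apply det_eq_zero_of_column_eq_zero 0
  intro j
  rw [submatrix_apply, hβ, ← low_succ α (ne_of_ne α hα), ext1_s0]

theorem disp_low {k : ℕ} (α β : Fin k ↪o Fin (n + 1)) (hα : ∀ i, α i ≠ 0) (hβ : ∀ i, β i ≠ 0) :
    dispersal α β = dispersal (low α hα) (low β hβ) := by
  unfold dispersal
  rw [idx_low α hα, idx_low β hβ, ← Finset.image_inter _ _ (Fin.succ_injective n),
    Finset.card_image_of_injective _ (Fin.succ_injective n)]

theorem disp_tl {k : ℕ} (α β : Fin (k + 1) ↪o Fin (n + 1)) (hα : α 0 = 0) (hβ : β 0 = 0) :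
    dispersal α β = dispersal (tl α) (tl β) := by
  unfold dispersal
  rw [idx_tl α hα, idx_tl β hβ, ← Finset.insert_inter_distrib, Finset.card_insert_of_notMem]
  · omega
  · intro h
    rw [mem_inter] at h
    obtain ⟨i, -, hi⟩ := mem_image.mp h.1
    exact tl_ne α i hi

theorem isP_ext (hA : IsPMatrix A) : IsPMatrix (ext1 A) := by
  intro k α
  rcases k with _ | k
  · unfold minor; simp
  · by_cases h : α 0 = 0
    · rw [minor_ext_tl α α h h]; exact hA _ _
    · rw [minor_ext_low α α (ne_of_ne α h) (ne_of_ne α h)]; exact hA _ _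

theorem condS_ext {d : ℕ} (hA : CondS d A) : CondS d (ext1 A) := by
  intro k α β hd
  rcases k with _ | k
  · unfold minor; simp
  · by_cases hα : α 0 = 0 <;> by_cases hβ : β 0 = 0
    · rw [minor_ext_tl α β hα hβ, minor_ext_tl β α hβ hα]
      apply hA
      rw [disp_tl α β hα hβ, disp_low _ _ (tl_ne α) (tl_ne β)] at hd
      exact hd
    · rw [minor_ext_row α β hα hβ, zero_mul]
    · rw [minor_ext_col α β hα hβ, zero_mul]
    · rw [minor_ext_low α β (ne_of_ne α hα) (ne_of_ne β hβ), minor_ext_low β α (ne_of_ne β hβ) (ne_of_ne α hα)]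
      apply hA
      rw [disp_low _ _ (ne_of_ne α hα) (ne_of_ne β hβ)] at hd
      exact hd

theorem det_ext (z : ℂ) : ((ext1 A).map Complex.ofRealHom + z • (1 : Matrix (Fin (n + 1)) (Fin (n + 1)) ℂ)).det =
    (1 + z) * (A.map Complex.ofRealHom + z • (1 : Matrix (Fin n) (Fin n) ℂ)).det := by
  rw [det_succ_row_zero, Finset.sum_eq_single 0]
  · congr 1
    · simp
    · congr 1
      ext i j
      rw [submatrix_apply, Fin.zero_succAbove]
      by_cases hij : i = j
      · subst hij; simp
      · have : i.succ ≠ j.succ := fun h => hij (Fin.succ_injective _ h)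
        simp [Matrix.one_apply_ne hij, Matrix.one_apply_ne this]
  · intro j _ hj
    obtain ⟨j', rfl⟩ := Fin.exists_succ_eq.mpr hj
    simp [Matrix.one_apply_ne (Fin.succ_ne_zero j').symm]
  · simp

theorem forces_anti {n d : ℕ} (h : Forces (n + 1) d) : Forces n d := by
  intro A hP hS
  have := h (ext1 A) (isP_ext hP) (condS_ext hS)
  rw [isStable_iff] at this ⊢
  intro z hz h0
  apply this z hz
  rw [det_ext, h0, mul_zero]

end extend

section witness

open Pool.Agent.Helper982.GKKFive in
theorem not_forces_five : ¬ Forces 5 1 := by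
  intro hF
  let A : Matrix (Fin 5) (Fin 5) ℝ := wit.map (fun q => (q : ℝ))
  have hAC : A.map Complex.ofRealHom = wit' := by
    ext i j
    simp [A, wit']
  have hminor : ∀ (k : ℕ) (α β : Fin k ↪o Fin 5),
      ((minor A α β : ℝ) : ℂ) = Pool.Agent.Helper982.GKKFive.minor wit' α β := by
    intro k α β
    unfold minor Pool.Agent.Helper982.GKKFive.minor
    rw [← hAC]
    have h := Complex.ofRealHom.map_det (A.submatrix α β)
    change (((A.submatrix α β).det : ℝ) : ℂ) = _ at h
    rw [h]
    rfl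
  have hP : IsPMatrix A := by
    intro k α
    have := (witP k α).2
    rw [← hminor] at this
    simpa using this
  have hS : CondS 1 A := by
    intro k α β hd
    rcases Nat.lt_or_ge (dispersal α β) 1 with h0 | h1
    · have h2 : (idx α ∩ idx β).card = k := by
        have h3 : (idx α ∩ idx β).card ≤ (idx α).card := Finset.card_le_card inter_subset_left
        rw [idx_card] at h3
        unfold dispersal at h0
        omega
      have h4 : idx α ∩ idx β = idx α := Finset.eq_of_subset_of_card_le inter_subset_left (by rw [h2, idx_card])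
      have h5 : idx α ∩ idx β = idx β := Finset.eq_of_subset_of_card_le inter_subset_right (by rw [h2, idx_card])
      have h6 : idx α = idx β := by rw [← h4, h5]
      have h7 : Set.range α = Set.range β := by
        have := congrArg (fun s : Finset (Fin 5) => (s : Set (Fin 5))) h6
        simpa [idx] using this
      have h8 : α = β := OrderEmbedding.range_inj.mp h7
      rw [h8]
      exact mul_self_nonneg _
    · have h1 : dispersal α β = 1 := le_antisymm hd h1
      have := (witW k α β h1).2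
      rw [← hminor, ← hminor, ← Complex.ofReal_mul, Complex.ofReal_re] at this
      exact this
  have h := hF A hP hS _ (by rw [hAC]; exact wit_eigenvalue)
  simp at h
  norm_num at h

end witness

theorem not_forces {n : ℕ} (hn : 5 ≤ n) : ¬ Forces n 1 := by
  induction n, hn using Nat.le_induction with
  | base => exact not_forces_five
  | succ n _ ih => exact fun h => ih (forces_anti h)

theorem dMin_isLeast {n : ℕ} (hn : 1 ≤ n) : IsLeast {d | 1 ≤ d ∧ d ≤ n ∧ Forces n d} (dMin n) := by
  have hne : {d | 1 ≤ d ∧ d ≤ n ∧ Forces n d}.Nonempty :=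
    ⟨n, hn, le_rfl, forces_of_le (by omega)⟩
  exact ⟨Nat.sInf_mem hne, fun d hd => Nat.sInf_le hd⟩

theorem dMin_le {n : ℕ} (hn : 1 ≤ n) : dMin n ≤ max 1 ((n - 1) / 2) :=
  (dMin_isLeast hn).2 ⟨le_max_left _ _, by omega, forces_of_le (le_max_right _ _)⟩

theorem dMin_pos {n : ℕ} (hn : 1 ≤ n) : 1 ≤ dMin n := (dMin_isLeast hn).1.1

theorem dMin_ge_two {n : ℕ} (hn : 5 ≤ n) : 2 ≤ dMin n := by
  have h1 := dMin_isLeast (show 1 ≤ n by omega)
  by_contra hcon
  have h2 : dMin n = 1 := by
    have := h1.1.1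
    omega
  have h3 := h1.1.2.2
  rw [h2] at h3
  exact not_forces hn h3

/-- `d(n)` is well defined; `d(n) ≤ max(1, ⌈n/2⌉ - 1)`; `d` is nondecreasing; `d(n) = 1` exactly
for `n ≤ 4`; and `d(5) = d(6) = 2`. -/
theorem result :
    (∀ n : ℕ, 1 ≤ n → IsLeast {d | 1 ≤ d ∧ d ≤ n ∧ Forces n d} (dMin n)) ∧
    (∀ n : ℕ, 1 ≤ n → dMin n ≤ max 1 ((n - 1) / 2)) ∧
    (∀ n : ℕ, 1 ≤ n → dMin n ≤ dMin (n + 1)) ∧
    (∀ n : ℕ, 1 ≤ n → (dMin n = 1 ↔ n ≤ 4)) ∧
    dMin 5 = 2 ∧ dMin 6 = 2 := by
  refine ⟨fun n hn => dMin_isLeast hn, fun n hn => dMin_le hn, ?_, ?_, ?_, ?_⟩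
  · intro n hn
    have h1 := dMin_isLeast hn
    have h2 := dMin_isLeast (show 1 ≤ n + 1 by omega)
    by_cases h : dMin (n + 1) ≤ n
    · exact h1.2 ⟨h2.1.1, h, forces_anti h2.1.2.2⟩
    · exact h1.1.2.1.trans (by omega)
  · intro n hn
    constructor
    · intro h
      by_contra hcon
      have := dMin_ge_two (n := n) (by omega)
      omega
    · intro h
      have h1 := dMin_le hn
      have h2 := dMin_pos hn
      omega
  · have h1 := dMin_le (n := 5) (by norm_num)
    have h2 := dMin_ge_two (n := 5) (by norm_num)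
    norm_num at h1
    omega
  · have h1 := dMin_le (n := 6) (by norm_num)
    have h2 := dMin_ge_two (n := 6) (by norm_num)
    norm_num at h1
    omega

end Pool.Agent.Results.MP_40f31b_al.SmallOrders
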